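import Pool.Agent.TH708.Tre.Main
import Pool.Agent.TH708.Tre.Up

set_option autoImplicit false

/-!
# Nested conjunctions are necessary for the typed bracket language when types are read once

The typed bracket language consists of the words over two kinds of brackets and a neutral letter in
which the brackets are balanced and matched brackets have the same kind.  A one-way deterministic
pushdown automaton accepts it with one head.  A word of length `n` is coded by `3 n` bits; the bit
`(i, 2)` is the kind of the bracket at position `i`, the other two bits say whether the position is
neutral, opening or closing.  We consider circuits of AND and OR gates with fan-in two whose leaves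
are literals and constants, of formal degree at most one in the kinds: the two sub-circuits feeding
an AND gate read disjoint sets of kinds.  The bits that say where the brackets open and close may be
read arbitrarily often.

(1) There are such circuits of polynomial size with `O(log n)` nested AND gates.

(2) Call a gate heavy if it reads more than `m` kinds (`m` up to `n^(3/4)`) and call an AND gate
heavy if both its inputs read more than `m` kinds.  If a circuit has `S` heavy gates and at most `d`
nested heavy AND gates then `(log n)² ≤ 312 (d + 1) (log (S + 1) + 1)`.  There is no restriction on
the width or the depth.  It suffices that the formal degree is at most one in a set `A` of kinds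
(then `n` is replaced by `|A|`) and that the circuit is correct on the words that are balanced if
kinds are forgotten.  So polynomial size needs `Ω(log n)` nested heavy AND gates; with (1) this is
tight.

(3) `d = 0`: skew circuits (nondeterministic branching programs) that read every kind at most once
on every path have size `n^Ω(log n)`, whatever their width.

Idea of (2): in the run on one accepted input there is a set of at most `d + 1` gates that together
read one third of the kinds, and by a rectangle argument this set of positions is almost closed
under the matching of the brackets.  For a binary tree of bundles of nested brackets, where the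
bundles are shifted at random and consist of random positions, a set of one third of the positions
that is almost closed must be aligned with the tree in logarithmically many places (one third is far
from every short sum of signed powers of two), which has probability `n^(-Ω(log n))`.
-/

namespace Pool.Agent.Results.MP_5e85fc_lc.BracketStackHeight

open Pool.Agent.TH708.Dec Pool.Agent.TH708.Tre

theorem result :
    (∃ K : ℕ, ∀ n : ℕ, ∃ C : Ckt (Fin n × Fin 3),
      C.size ≤ (n + 2) ^ K ∧ ands (C.tree C.out) ≤ K * Nat.log 2 (n + 2) ∧
        (∀ A m, nest A m (C.tree C.out) ≤ ands (C.tree C.out)) ∧
        (∀ v, C.deg v ≤ 1) ∧ ∀ z, (C.eval z = true ↔ Dyck z)) ∧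
    (∀ (n : ℕ) (C : Ckt (Fin n × Fin 3)) (A : Finset (Fin n × Fin 3)) (m : ℕ),
      (∀ z, Dyck (untyped z) → (C.eval z = true ↔ Dyck z)) → (∀ v ∈ A, v.2 = 2) →
      (∀ v ∈ A, C.deg v ≤ 1) → 1 ≤ m → m ^ 4 ≤ A.card ^ 3 → 700 ≤ Nat.log 2 A.card →
        (Nat.log 2 A.card) ^ 2 ≤ 312 * ((nest A m (C.tree C.out) + 1) *
          (Nat.log 2 ((heavy A m C).card + 1) + 1))) ∧
    ∀ (n : ℕ) (C : Ckt (Fin n × Fin 3)),
      (∀ z, Dyck (untyped z) → (C.eval z = true ↔ Dyck z)) → (∀ i, C.deg (i, 2) ≤ 1) →
      Skew C → 700 ≤ Nat.log 2 n →
        (Nat.log 2 n) ^ 2 ≤ 312 * (Nat.log 2 (C.size + 1) + 1) :=
  ⟨upper_nest, fun _ C A m hC hA hd hm hmA hN => lower' C hC A hA hd m hm hmA hN,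
    fun _ C hC hd hs hn => lower_skew C hC hd hs hn⟩

end Pool.Agent.Results.MP_5e85fc_lc.BracketStackHeight
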