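import Pool.Agent.TH393.LB10

set_option autoImplicit false

/-!
# A two-way pushdown language against nondeterministic machines with up to `ε log n` heads

`Prog k V` is a nonuniform nondeterministic program with `k` input heads for the words of one length
`n`: a set `V` of nodes, every node with `k` head positions, and arbitrary moves between nodes which
depend on the symbols under the heads, provided that every head is moved at most one cell from the
place where it, or another head, was before. So there may be an arbitrary memory, the moves may depend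
on the positions in an arbitrary way, and heads may jump to each other. `HardS k δ n L` says that there
is a nonempty set `H` of words of length `n` in `L` such that every such program that accepts no word of
length `n` outside `L` accepts at most a fraction `exp (-δ n)` of the words in `H` by computations of
length `T` with `T log (2 + |V| / n ^ 2) < δ n ^ 2`.
-/

namespace Pool.Agent.Results.MP_5e85fc_lc.GrowingHeads

open Pool.Agent.TH393.LB Pool.Agent.H867R4

/-- There are a language `L` over four letters accepted by a deterministic two-way pushdown automaton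
with one input head, and numbers `v`, `C`, such that the following holds for all `k` and `N` with
`C ^ (k + 1) ≤ N`, where `n = (5 k + 2) (N v + 1) - 1`, so for up to `ε log n` heads. Let `L'` be `L` or
its complement.

1. `L'` is hard for nondeterministic programs with `k` heads, with `δ = 1 / C ^ (k + 1)`: for almost
   all words in a set of hard words, `T log (2 + size / n ^ 2) ≥ δ n ^ 2`.
2. Every nondeterministic program with `k` heads which accepts exactly the words of length `n` in `L'`
   has at least `n ^ 2 / C ^ (k + 1)` nodes.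
3. Let `M` be a nondeterministic two-way `k`-head finite automaton, with a set `Q` of states of any
   size, which accepts exactly the words of length `n` in `L'`. Then for some word of length `n`
   accepted by `M` all accepting computations have length `T` with
   `T log (2 + |Q| (n + 2) ^ k / n ^ 2) ≥ n ^ 2 / C ^ (k + 1)`. -/
theorem result : ∃ L : Set (List (Fin 4)), Pool.Agent.H541R2.TwoDPDA L ∧
    ∃ v C : ℕ, ∀ k N n : ℕ, C ^ (k + 1) ≤ N → n + 1 = (5 * k + 2) * (N * v + 1) →
      ∀ L' : Set (List (Fin 4)), (L' = L ∨ L' = Lᶜ) →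
        HardS k (1 / (C : ℝ) ^ (k + 1)) n L' ∧
        (∀ (V : Type) (_ : Fintype V) (P : Prog k V),
          (∀ w : List (Fin 4), w.length = n → (w ∈ L' ↔ P.Accepts w)) →
          n ^ 2 ≤ C ^ (k + 1) * Fintype.card V) ∧
        (∀ (Q : Type) (_ : Fintype Q) (M : NMach (Fin 4) k Q),
          (∀ w : List (Fin 4), w.length = n → (w ∈ L' ↔ M.Accepts w)) →
          ∃ w ∈ L', w.length = n ∧ ∀ (T : ℕ) (ρ : ℕ → NCfg k Q), M.AccRun w T ρ →
            (n : ℝ) ^ 2 ≤ C ^ (k + 1) *
              (T * Real.log (2 + Fintype.card Q * ((n : ℝ) + 2) ^ k / (n : ℝ) ^ 2))) := by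
  refine ⟨Pool.Agent.H541R2.theLang, Pool.Agent.H541R2.theLang_twoDPDA, ?_⟩
  obtain ⟨C⟩ := exists_code Unit
  refine ⟨C.x₁.length + 1, 2 ^ 45 * ((C.x₁.length + 1) + 1) ^ 2, ?_⟩
  intro k N n hN hn L' hL'
  obtain ⟨h1, h2, h3, h4⟩ := consts k (C.x₁.length + 1)
  obtain ⟨K, hK⟩ : ∃ K : ℕ, K = 2 ^ 45 * ((C.x₁.length + 1) + 1) ^ 2 := ⟨_, rfl⟩
  rw [← hK] at hN h1 h2 ⊢
  have hKpos : 0 < K := by rw [hK]; positivity
  have hKpos' : (0 : ℝ) < K := by exact_mod_cast hKpos
  have hpow : (0 : ℝ) < (K : ℝ) ^ (k + 1) := by positivity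
  have hN' : 8 * ((5 * k + 1 : ℝ) ^ 2 + 1) * 4 ^ (5 * k) ≤ N :=
    h1.trans (by exact_mod_cast hN)
  have hNpos : 0 < N := lt_of_lt_of_le (by positivity) hN
  have hn1 : 1 ≤ n := by
    have : 2 * 2 ≤ (5 * k + 2) * (N * (C.x₁.length + 1) + 1) := by
      apply Nat.mul_le_mul (by omega)
      have : 1 ≤ N * (C.x₁.length + 1) := Nat.mul_pos hNpos (by omega)
      omega
    omega
  have hard : HardS k (δ₀ k (C.x₁.length + 1)) n L' := by
    rcases hL' with rfl | rfl
    · exact hardS_aux C k N n hN' hn (-1) (Or.inr rfl) _ (fun b => W_mem C b)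
    · refine hardS_aux C k N n hN' hn 1 (Or.inl rfl) _ (fun b => ?_)
      rw [Set.mem_compl_iff, W_mem C b]
      have := Pool.Agent.H541R2.gsign_abs Finset.univ b
      rcases eq_or_eq_neg_of_abs_eq this with h | h <;> rw [h] <;> norm_num
  have hle : 1 / (K : ℝ) ^ (k + 1) ≤ δ₀ k (C.x₁.length + 1) := h2.trans (by linarith)
  have hard' := hard.mono hle
  have hδ : (0 : ℝ) < 1 / (K : ℝ) ^ (k + 1) := by positivity
  refine ⟨hard', fun V _ P hP => ?_, fun Q _ M hM => ?_⟩
  · have h5 := size_of_hardS h4 h3 hn1 hard V P hP
    have h6 : 1 / (K : ℝ) ^ (k + 1) * (n : ℝ) ^ 2 ≤ Fintype.card V :=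
      (mul_le_mul_of_nonneg_right h2 (by positivity)).trans h5
    rw [one_div, inv_mul_le_iff₀ hpow] at h6
    exact_mod_cast h6
  · obtain ⟨w, hwL, hwn, hw⟩ := automata_of_hardS hδ hn1 hard' Q M hM
    refine ⟨w, hwL, hwn, fun T ρ hρ => ?_⟩
    have h6 := hw T ρ hρ
    rwa [one_div, inv_mul_le_iff₀ hpow] at h6

end Pool.Agent.Results.MP_5e85fc_lc.GrowingHeads
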