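import Pool.Agent.TH706.RM.Main

/-!
# Randomised machines with several heads against one pushdown store

There is one language `L` over four letters which is accepted by a deterministic two-way pushdown
automaton with one head, such that randomised machines with `k` two-way heads and a memory of `S`
bits need time `T` with `(T + n) (S + log n) ≥ c n²` for `L`, even if they may err with a
probability exponentially close to `1 / 2`. The machines are nonuniform: the contents of the memory
may be used and changed in any way, depending on the time and on `n`, and the random bits, as many
as wanted, are chosen in the beginning and are free of charge. In particular `L` is not accepted in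
time `o(n² / log n)` by a randomised or deterministic two-way automaton with `k` heads, nor with
logarithmic space and `k` heads, whatever `k` is; with `n ^ δ` bits of memory the time is at least
`c n ^ (2 - δ)`. So a pushdown store, used by a deterministic automaton with one head, cannot be
replaced by more heads, coins, and a memory of `n ^ o(1)` bits without a quadratic loss in time,
even for tiny advantages.

The second part says that the number of the accepting outcomes of `c n` random bits does not decide
`L` either, by any threshold (machines of the type `PP`; this includes `c n` nondeterministic
guesses in the beginning).

The language, its pushdown automaton, the coding of matrices by words and the discrepancy of the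
generalised inner product are those of the starting files (`H541R2`, `H867R4`). There the machines
are deterministic (with memory) or nondeterministic (without memory) and always right. Here the
words are random, and the discrepancy bound is applied to the cylinder intersections given by the
configurations at the ends of short intervals of time, in each of which a machine does not read
one of the `3 k + 1` rows of the matrix; which one depends only on the first of these
configurations.
-/

set_option autoImplicit false

namespace Pool.Agent.Results.MP_5e85fc_lc.RandomizedHeads

open Pool.Agent.TH706.RM (DMach)

/-- The number of the machines `M ω` whose answer on `w` after `T` steps is right. -/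
noncomputable def right {k : ℕ} {St Ω : Type} (L : Set (List (Fin 4))) (M : Ω → DMach k St)
    (w : List (Fin 4)) (T : ℕ) : ℕ :=
  Nat.card {ω // ((M ω).ans w T = true ↔ w ∈ L)}

/-- The number of the machines `M ω` which accept `w` after `T` steps. -/
noncomputable def accepting {k : ℕ} {St Ω : Type} (M : Ω → DMach k St) (w : List (Fin 4))
    (T : ℕ) : ℕ :=
  Nat.card {ω // (M ω).ans w T = true}

/-- There is a language `L` over four letters which is accepted by a deterministic two-way pushdown
automaton with one input head, and for every `k` there are `c > 0` and an arithmetic progression of
lengths `n = a N + b` (`N ≥ N₀`) with the following property. Let `St` be a finite set of memory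
contents and `T` a number of steps with `(T + n) (log |St| + log n) ≤ c n²`, and let `M ω` be a
nonempty finite family of deterministic machines with `k` two-way heads and the memory `St`.

* On some word `w` of length `n` at most a fraction `1 / 2 + exp (- c n)` of the machines is right
  about `w ∈ L` after `T` steps.
* If the family has at most `exp (c n)` members, then for every threshold `θ` there is a word `w`
  of length `n` such that `w ∈ L` is not equivalent to: at least `θ` of the machines accept `w`
  after `T` steps. -/
theorem result : ∃ L : Set (List (Fin 4)), Pool.Agent.H541R2.TwoDPDA L ∧
    ∀ k : ℕ, ∃ a b : ℕ, 0 < a ∧ ∃ c : ℝ, 0 < c ∧ ∃ N₀ : ℕ, ∀ N ≥ N₀, ∀ n : ℕ,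
      n = a * N + b → ∀ (St : Type) [Fintype St] (T : ℕ),
        ((T : ℝ) + n) * (Real.log (Fintype.card St) + Real.log n) ≤ c * (n : ℝ) ^ 2 →
        ∀ (Ω : Type) [Fintype Ω] (M : Ω → DMach k St), 0 < Fintype.card Ω →
          (∃ w : List (Fin 4), w.length = n ∧ (right L M w T : ℝ) ≤
            (1 / 2 + Real.exp (-(c * n))) * Fintype.card Ω) ∧
          ((Fintype.card Ω : ℝ) ≤ Real.exp (c * n) → ∀ θ : ℕ,
            ∃ w : List (Fin 4), w.length = n ∧ ¬ (w ∈ L ↔ θ ≤ accepting M w T)) :=
  ⟨Pool.Agent.H541R2.theLang, Pool.Agent.H541R2.theLang_twoDPDA, Pool.Agent.TH706.RM.main⟩

end Pool.Agent.Results.MP_5e85fc_lc.RandomizedHeads
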