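import Pool.Agent.W997.GS.Final

/-!
# With and without a pushdown store: the product of stack height and space, at all levels

`2:multi-XFA = 2:multi-XPDA` is the question whether a pushdown store can be removed from machines
with logarithmic memory (`XL` against `P`). We compare nonuniform machines which read few of the
input letters: deterministic programs with a stack on one side; on the other side programs with any
branching and any mode of acceptance (deterministic, nondeterministic, co-nondeterministic,
alternating, counting, ...), without a stack or with a stack of bounded height. The logarithm of the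
number of states and stack symbols is the space.

The functions are the lowest bits of the values at the roots of the unrolled De Bruijn graph of
height `h`: the nodes of height `j ≤ h` are the pairs of a word and a letter, the children of a node
are the nodes of the next smaller height whose words arise by shifting, and every inner node has a
table indexed by the tuples of values of its children. `N` is the number of variables, and `h` is
arbitrary between `1` and `2 ^ p ≥ N ^ c`. They have circuits of size `N ^ 2` and depth
`5 h log N`.

* A deterministic program with a stack of height `h` needs only space `8 log N` (the depth first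
  evaluation), and in general height `h / r` and space `8 r log N`, for every `r ≥ 1`; on every input
  it reads at most `N ^ δ` letters.
* But in every mode, if (stack height + 1) times space is at most `c h log N`, then in the reachable
  configurations on average at least `N ^ (1 - δ)` different letters are read, even if the program
  is right only on slightly more than half of the inputs. Without a stack space more than
  `c h log N` is needed; for `h = 2 ^ p` this is more than `N ^ c`.

So for machines which read `N ^ (1 - δ)` letters: with a pushdown store deterministic logarithmic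
space is enough, without it no mode of acceptance works even with space `N ^ c`; a pushdown store of
height `τ` saves exactly the factor `τ + 1` of the space, up to constants, for all `h` and all `τ`.
The starting file `StackVersusAllModes` (for one context-free language) has the case `h ~ log N`,
i.e. the range `log ^ 2`.
-/

set_option autoImplicit false

namespace Pool.Agent.Results.MP_5e85fc_lc.StackHeightTimesSpace

open Pool.Agent.W997.DB Pool.Agent.W997.GS

/-- For every `δ > 0` there are `D`, `ℓ₁`, `c > 0` and `p₀` such that for all `p ≥ p₀` and all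
`1 ≤ h ≤ 2 ^ p`, with `ℓ = ℓ₁ * p`, alphabet `Fin (2 ^ ℓ)` and `N` the number of variables of the
unrolled De Bruijn graph of height `h` over words of length `2 * p + 1` (then `N ^ c ≤ 2 ^ p`), the
lowest bit of the value of every root

* is computed by Boolean circuits of size at most `N ^ 2` and depth at most `5 * h * log N`,
* is computed by a deterministic branching program (without a stack) of log size `N ^ δ` in time
  `N ^ δ`,
* for every `r ≥ 1` is computed by a deterministic program with a stack, of log size at most
  `8 * r * log N` and stack height at most `h / r`, which on every input stops after at most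
  `D ^ (h + 2)` steps and reads at most `N ^ δ` different variables,
* but each program with a stack, with any branching and any mode of acceptance, for which
  (stack height + 1) times log size is at most `c * h * log N` and which is right on a fraction of
  at least `1 / 2 + N ^ (-c)` of the inputs, reads in its reachable configurations on average at
  least `N ^ (1 - δ)` different variables. -/
theorem result : ∀ δ : ℝ, 0 < δ → ∃ D ℓ₁ : ℕ, 2 ≤ D ∧ 1 ≤ ℓ₁ ∧ ∃ c : ℝ, 0 < c ∧ ∃ p₀ : ℕ,
    ∀ p : ℕ, p₀ ≤ p → ∀ h : ℕ, 1 ≤ h → h ≤ 2 ^ p → ∀ ℓ : ℕ, ℓ = ℓ₁ * p → ∀ N : ℝ,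
    N = Fintype.card (Var D (2 * p) h (2 ^ ℓ)) → N ^ c ≤ 2 ^ p ∧
      ∀ (g : Word D (2 * p)) (i : Fin D) (f : Input D (2 * p) h (2 ^ ℓ) → Bool),
      f = rootBit g i →
      ByCircuit f (N ^ 2) (5 * h * Real.log N) ∧
      ByProgram f (N ^ δ) (N ^ δ) (N ^ δ) ∧
      (∀ r : ℕ, 1 ≤ r → ByStack f (8 * r * Real.log N) (h / r) (D ^ (h + 2)) (N ^ δ)) ∧
      HardForAllModes f (c * h * Real.log N) (N ^ (-c)) (N ^ (1 - δ)) := by
  intro δ hδ
  obtain ⟨β, p₀, hβ, hp₀, hpar⟩ := exists_par δ hδ
  have hb4 : 4 ≤ 2 ^ β := by
    calc 4 = 2 ^ 2 := by norm_num
      _ ≤ 2 ^ β := Nat.pow_le_pow_right (by norm_num) (by omega)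
  obtain ⟨D, hD⟩ : ∃ D, D = (2 ^ β) ^ 3 := ⟨_, rfl⟩
  have hD2 : 2 ≤ D := by
    rw [hD]
    calc 2 ≤ 2 ^ β := by omega
      _ = (2 ^ β) ^ 1 := (pow_one _).symm
      _ ≤ (2 ^ β) ^ 3 := Nat.pow_le_pow_right (by positivity) (by norm_num)
  have hβ0 : (0 : ℝ) < β := by
    have : 0 < β := by omega
    exact_mod_cast this
  refine ⟨D, 21 * β, hD2, by omega,
    1 / (4 * (β : ℝ) * (21 * ((2 ^ β : ℕ) : ℝ) ^ 3 + 9)), by positivity, p₀, ?_⟩
  intro p hp h h1 hh ℓ hℓ N' hN'
  obtain ⟨N, hN⟩ : ∃ N, N = Fintype.card (Var D (2 * p) h (2 ^ ℓ)) := ⟨_, rfl⟩
  rw [← hN] at hN'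
  subst hN'
  have hpp : p < 2 ^ p := Nat.lt_two_pow_self
  have hh' : h + 1 ≤ (2 ^ β) ^ (2 * p) := by
    calc h + 1 ≤ 2 ^ p * 2 ^ p := by nlinarith
      _ = 2 ^ (2 * p) := by rw [← pow_add]; congr 1; ring
      _ ≤ (2 ^ β) ^ (2 * p) := Nat.pow_le_pow_left (by omega) _
  have H := hpar D hD p hp h h1 hh' ℓ hℓ N hN
  refine ⟨?_, ?_⟩
  · refine H.hNc.trans ?_
    rw [← Real.rpow_natCast]
    apply Real.rpow_le_rpow_of_exponent_le (by norm_num)
    have hp0 : (0 : ℝ) ≤ p := by positivity
    linarith
  · rintro g i f rfl
    refine ⟨?_, ?_, fun r hr => par_upper H g i r hr, par_stack H hh g i⟩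
    · obtain ⟨C, h2, h3, h4⟩ := H.circuits g i
      exact ⟨C, by exact_mod_cast h2, h3, h4⟩
    · obtain ⟨P, h2, h3⟩ := H.time g i
      refine ⟨P, h2, ?_⟩
      intro x
      obtain ⟨t, m, h4, h5⟩ := h3 x
      have h6 : (m : ℝ) ≤ t := by exact_mod_cast run_le P h5
      exact ⟨t, m, h4, h6.trans h4, h5⟩

end Pool.Agent.Results.MP_5e85fc_lc.StackHeightTimesSpace
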